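import Mathlib
import Pool.Agent.Helper175.NS.Mask
import Pool.Agent.H933R3.Ball

set_option autoImplicit false

/-!
# The complexes `R * B`, where `B` is a 3-ball with a knotted spanning edge

`B` has 13 vertices `0, ..., 12` and 39 facets, given by bit masks.  The join of `B` with a simplex
`R` is shown to be a ball by a chain of common stellar subdivisions that leads to a simplex.
-/

namespace Pool.Agent.TH380.NE

open Finset Pool.Agent.Helper175.NS

/-- the facets of `B` -/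
def Bp : List ℕ := [23, 75, 531, 579, 2061, 4117, 6149, 329, 2313, 4145, 2209, 6177, 2433, 278, 4170, 2322, 2578,
  2242, 4290, 2626, 2434, 2092, 4372, 4388, 6180, 2200, 4248, 2328, 4376, 2216, 4424, 4208,
  2256, 4304, 4448, 1031, 1035, 1037, 1038]

/-- the join of the complex generated by `M` with the simplex `R` -/
def J (R : Finset ℕ) (M : Finset (Finset ℕ)) : Finset (Finset ℕ) := M.image (fun β => β ∪ R)

theorem mem_J {R : Finset ℕ} {M : Finset (Finset ℕ)} {A : Finset ℕ} :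
    A ∈ J R M ↔ ∃ β ∈ M, β ∪ R = A := by
  rw [J, mem_image]

theorem star_J (R : Finset ℕ) (M : Finset (Finset ℕ)) (ρ : Finset ℕ) (v : ℕ)
    (hρ : Disjoint ρ R) : star (J R M) ρ v = J R (star M ρ v) := by
  have key1 : ∀ β : Finset ℕ, ρ ⊆ β ∪ R ↔ ρ ⊆ β := by
    intro β
    constructor
    · intro h x hx
      rcases mem_union.1 (h hx) with h1 | h1
      · exact h1
      · exact absurd h1 (disjoint_left.1 hρ hx)
    · intro h
      exact h.trans subset_union_left
  have key2 : ∀ β : Finset ℕ, ∀ z ∈ ρ, insert v ((β ∪ R).erase z) = insert v (β.erase z) ∪ R := by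
    intro β z hz
    have h1 := disjoint_left.1 hρ hz
    ext n
    simp only [mem_insert, mem_erase, mem_union]
    constructor
    · rintro (h2 | ⟨h2, h3 | h3⟩)
      · exact Or.inl (Or.inl h2)
      · exact Or.inl (Or.inr ⟨h2, h3⟩)
      · exact Or.inr h3
    · rintro ((h2 | ⟨h2, h3⟩) | h2)
      · exact Or.inl h2
      · exact Or.inr ⟨h2, Or.inl h3⟩
      · refine Or.inr ⟨?_, Or.inr h2⟩
        rintro rfl
        exact h1 h2
  ext A
  constructor
  · intro hA
    rw [mem_J]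
    rcases mem_star.1 hA with ⟨h1, h2⟩ | ⟨F, h1, h2, z, hz, rfl⟩
    · obtain ⟨β, hβ, rfl⟩ := mem_J.1 h1
      exact ⟨β, mem_star.2 (Or.inl ⟨hβ, fun h => h2 ((key1 β).2 h)⟩), rfl⟩
    · obtain ⟨β, hβ, rfl⟩ := mem_J.1 h1
      exact ⟨insert v (β.erase z), mem_star.2 (Or.inr ⟨β, hβ, (key1 β).1 h2, z, hz, rfl⟩),
        (key2 β z hz).symm⟩
  · intro hA
    obtain ⟨γ, hγ, rfl⟩ := mem_J.1 hA
    rw [mem_star]
    rcases mem_star.1 hγ with ⟨h1, h2⟩ | ⟨β, h1, h2, z, hz, rfl⟩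
    · exact Or.inl ⟨mem_J.2 ⟨γ, h1, rfl⟩, fun h => h2 ((key1 γ).1 h)⟩
    · exact Or.inr ⟨β ∪ R, mem_J.2 ⟨β, h1, rfl⟩, (key1 β).2 h2, z, hz, key2 β z hz⟩

theorem step_J (R : Finset ℕ) (hR : ∀ n ∈ R, 14 ≤ n) (M M' : Finset (Finset ℕ))
    (ρ ρ' : Finset ℕ) (hne : ρ.Nonempty) (hne' : ρ'.Nonempty)
    (hρ : ∀ n ∈ ρ, n < 13) (hρ' : ∀ n ∈ ρ', n < 13)
    (hM : ∀ β ∈ M, 13 ∉ β) (hM' : ∀ β ∈ M', 13 ∉ β)
    (heq : star M ρ 13 = star M' ρ' 13) :
    Nonempty (Sp (J R M') ≃ₜ Sp (J R M)) := by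
  have key : ∀ N : Finset (Finset ℕ), (∀ β ∈ N, 13 ∉ β) → ∀ F ∈ J R N, 13 ∉ F := by
    intro N hN F hF
    obtain ⟨β, hβ, rfl⟩ := mem_J.1 hF
    rw [mem_union, not_or]
    refine ⟨hN β hβ, fun h => ?_⟩
    have := hR 13 h
    omega
  have hd : ∀ σ : Finset ℕ, (∀ n ∈ σ, n < 13) → Disjoint σ R := by
    intro σ hσ
    rw [disjoint_left]
    intro x hx hxR
    have h1 := hσ x hx
    have h2 := hR x hxR
    omega
  obtain ⟨e1⟩ := star_homeo (J R M) ρ 13 hne (key M hM) (fun h => by have := hρ 13 h; omega)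
  obtain ⟨e2⟩ := star_homeo (J R M') ρ' 13 hne' (key M' hM')
    (fun h => by have := hρ' 13 h; omega)
  rw [star_J R M ρ 13 (hd ρ hρ)] at e1
  rw [star_J R M' ρ' 13 (hd ρ' hρ'), ← heq] at e2
  exact ⟨e2.symm.trans e1⟩

/-- replace the facets containing `ρ` by the facets in `a` -/
def applyC (l : List ℕ) (ρ : ℕ) (a : List ℕ) : List ℕ :=
  l.filter (fun m => !(decide (m &&& ρ = ρ))) ++ a

def okC (l l' : List ℕ) (ρ ρ' : ℕ) : Bool :=
  sameB (starB l ρ 13) (starB l' ρ' 13) && l'.all (fun m => decide (m < 8192)) &&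
    decide (ρ < 8192) && decide (ρ' < 8192) && decide (0 < ρ) && decide (0 < ρ')

def chainC : List ℕ → List (ℕ × ℕ × List ℕ) → List ℕ → Bool
  | l, [], t => sameB l t
  | l, r :: ms, t => okC l (applyC l r.1 r.2.2) r.1 r.2.1 && chainC (applyC l r.1 r.2.2) ms t

theorem dec_nonempty {ρ : ℕ} (h1 : ρ < 8192) (h2 : 0 < ρ) : (dec ρ).Nonempty := by
  by_contra hcon
  rw [not_nonempty_iff_eq_empty] at hcon
  have h3 : ρ = 0 := by
    apply Nat.eq_of_testBit_eq
    intro i
    rw [Nat.zero_testBit]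
    by_contra h4
    rw [Bool.not_eq_false] at h4
    have h5 : i < 14 := by
      by_contra h6
      rw [Nat.testBit_eq_false_of_lt (by
        calc ρ < 2 ^ 13 := by norm_num; exact h1
          _ ≤ 2 ^ i := Nat.pow_le_pow_right (by norm_num) (by omega))] at h4
      exact absurd h4 (by decide)
    have h6 : i ∈ dec ρ := mem_dec.2 ⟨h5, h4⟩
    rw [hcon] at h6
    exact absurd h6 (notMem_empty i)
  omega

theorem chainJ_homeo (R : Finset ℕ) (hR : ∀ n ∈ R, 14 ≤ n) (ms : List (ℕ × ℕ × List ℕ)) :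
    ∀ (l t : List ℕ), (∀ m ∈ l, m < 8192) → chainC l ms t = true →
      Nonempty (Sp (J R (decL t)) ≃ₜ Sp (J R (decL l))) := by
  induction ms with
  | nil =>
    intro l t _ h
    rw [chainC] at h
    rw [decL_of_sameB h]
    exact ⟨Homeomorph.refl _⟩
  | cons r ms ih =>
    intro l t hl h
    rw [chainC, Bool.and_eq_true] at h
    obtain ⟨h1, h2⟩ := h
    simp only [okC, Bool.and_eq_true, decide_eq_true_eq, List.all_eq_true] at h1
    obtain ⟨⟨⟨⟨⟨h3, h4⟩, h5⟩, h6⟩, h7⟩, h8⟩ := h1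
    obtain ⟨e1⟩ := ih (applyC l r.1 r.2.2) t h4 h2
    have h13 : ∀ l' : List ℕ, (∀ m ∈ l', m < 8192) → ∀ β ∈ decL l', 13 ∉ β := by
      intro l' hl' β hβ hmem
      obtain ⟨m, hm, rfl⟩ := mem_decL.1 hβ
      have := dec_lt (hl' m hm) 13 hmem
      omega
    have heq : star (decL l) (dec r.1) 13
        = star (decL (applyC l r.1 r.2.2)) (dec r.2.1) 13 := by
      rw [← decL_starB l r.1 h5, ← decL_starB _ r.2.1 h6]
      exact decL_of_sameB h3
    obtain ⟨e2⟩ := step_J R hR (decL l) (decL (applyC l r.1 r.2.2)) (dec r.1) (dec r.2.1)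
      (dec_nonempty h5 h7) (dec_nonempty h6 h8) (dec_lt h5) (dec_lt h6) (h13 l hl) (h13 _ h4) heq
    exact ⟨e1.trans e2⟩

def movesC : List (ℕ × ℕ × List ℕ) :=
  [(272, 1, [113, 353]), (17, 2048, [2145, 2160]), (289, 128, [225, 449, 480]), (2080, 17, [113,
  2129]), (97, 144, [177, 209, 240]), (288, 2, [226, 450]), (224, 18, [114, 178, 210]), (194,
  272, [338, 402, 464]), (66, 288, [306, 368]), (176, 3, [51, 147, 163]), (162, 8, [43, 139,
  169]), (145, 66, [83, 195, 210]), (131, 72, [75, 201, 202]), (138, 4096, [4170, 4290, 4296]),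
  (81, 2050, [2067, 2115, 2130]), (82, 2176, [2194, 2242, 2256]), (193, 264, [329, 393, 456]),
  (146, 2304, [2322, 2434, 2448]), (448, 24, [216, 344, 408]), (2049, 512, [531, 579, 2578,
  2626]), (200, 4112, [4184, 4248, 4304]), (400, 2056, [2200, 2328, 2440]), (392, 2049, [2185,
  2313, 2433]), (88, 4352, [4376, 4424, 4432]), (137, 2080, [2089, 2209, 2216]), (2080, 137,
  [169, 2185]), (137, 2080, [2089, 2209, 2216]), (336, 4128, [4208, 4400, 4448]), (34, 4, [15,
  23, 45, 53, 278, 308]), (304, 4100, [4148, 4372, 4388]), (15, 1024, [1031, 1035, 1037, 1038]),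
  (52, 4097, [4117, 4133, 4145]), (41, 2052, [2061, 2085, 2092]), (37, 6144, [6149, 6177, 6180])]

theorem chainC_ok : chainC [368] movesC Bp = true := by decide +kernel

/-- the join of `B` with a simplex is a ball -/
theorem join_ball (R : Finset ℕ) (hR : ∀ n ∈ R, 14 ≤ n) (d : ℕ) (hd : R.card + 3 = d) :
    Nonempty (Sp (J R (decL Bp)) ≃ₜ Metric.closedBall (0 : EuclideanSpace ℝ (Fin d)) 1) := by
  obtain ⟨e⟩ := chainJ_homeo R hR movesC [368] Bp (by decide) chainC_ok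
  have h1 : decL [368] = {dec 368} := rfl
  have h2 : J R (decL [368]) = {dec 368 ∪ R} := by
    rw [h1, J, image_singleton]
  have h3 : (dec 368 ∪ R).card = d + 1 := by
    rw [card_union_of_disjoint, show (dec 368).card = 4 from by decide]
    · omega
    · rw [disjoint_left]
      intro x hx hxR
      have h4 := (mem_dec.1 hx).1
      have h5 := hR x hxR
      omega
  rw [h2] at e
  obtain ⟨e2⟩ := Pool.Agent.H933R3.simplex_ball (dec 368 ∪ R) d h3
  exact ⟨e.trans e2⟩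

end Pool.Agent.TH380.NE
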