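import Mathlib
import Pool.Agent.H933R3.Defs

set_option autoImplicit false

/-!
# An obstruction to local constructibility

Let `E` be a face of codimension two of a pure `d`-dimensional complex `K`, contained in exactly
three facets, and suppose that a system of transition functions `psi u v` (for the vertices
`u`, `v` outside `E` that lie in a common facet) is given which is consistent on every facet.  If
`K` is locally constructible, the system has a global section.
-/

namespace Pool.Agent.TH380.NE

open Finset Pool.Agent.H933R3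

variable {V : Type} [DecidableEq V] {C : Type}

/-- the data of the obstruction -/
structure Dat (d : ℕ) (K : Finset (Finset V)) (E : Finset V) (psi : V → V → C → C) (col : V → C)
    (T : Fin 3 → Finset V) : Prop where
  pure : ∀ F, IsFacet K F → F.card = d + 1
  two : AtMostTwo d K
  cardE : E.card + 1 = d
  refl : ∀ F, IsFacet K F → ∀ u ∈ F, u ∉ E → ∀ c, psi u u c = c
  coc : ∀ F, IsFacet K F → ∀ u ∈ F, ∀ v ∈ F, ∀ w ∈ F, u ∉ E → v ∉ E → w ∉ E → ∀ c,
    psi v w (psi u v c) = psi u w c
  hcol : ∀ F, IsFacet K F → E ⊆ F → ∀ u ∈ F, ∀ v ∈ F, u ∉ E → v ∉ E → psi u v (col u) = col v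
  ring : ∀ F, IsFacet K F → E ⊆ F → ∃ i, F = T i
  inj : Function.Injective T

/-- flat families of functions on the facets -/
structure Flat (E : Finset V) (psi : V → V → C → C) (P G : Finset (Finset V))
    (s : Finset V → V → C) : Prop where
  inner : ∀ F ∈ P, ∀ u ∈ F, ∀ v ∈ F, u ∉ E → v ∉ E → s F v = psi u v (s F u)
  glue : ∀ R ∈ G, ∀ X ∈ P, ∀ Y ∈ P, R ⊆ X → R ⊆ Y → ∀ u ∈ R, u ∉ E → s X u = s Y u

/-- the invariants of a stage of a local construction -/
structure Inv (d : ℕ) (K : Finset (Finset V)) (P G : Finset (Finset V)) : Prop where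
  fac : ∀ F ∈ P, IsFacet K F
  pair : ∀ R ∈ G, R.card = d ∧ ∃ X ∈ P, ∃ Y ∈ P, X ≠ Y ∧ R ⊆ X ∧ R ⊆ Y

theorem eq_inter {d : ℕ} {X Y R : Finset V} (hX : X.card = d + 1) (hY : Y.card = d + 1)
    (hne : X ≠ Y) (hR : R.card = d) (h1 : R ⊆ X) (h2 : R ⊆ Y) : R = X ∩ Y := by
  apply eq_of_subset_of_card_le (subset_inter h1 h2)
  rw [hR]
  by_contra hc
  push Not at hc
  have h3 : X ∩ Y = X := by
    apply eq_of_subset_of_card_le inter_subset_left
    omega
  have h4 : X ∩ Y = Y := by
    apply eq_of_subset_of_card_le inter_subset_right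
    omega
  exact hne (h3.symm.trans h4)

theorem stage_inv {d : ℕ} {K : Finset (Finset V)} {P G : Finset (Finset V)}
    (h : LCStage d K P G) : Inv d K P G := by
  induction h with
  | start F hF =>
    refine ⟨?_, by simp⟩
    intro F' hF'
    rw [mem_singleton] at hF'
    rw [hF']
    exact hF
  | attach P G F F' R h hF hF' hn hR h1 h2 hG ih =>
    refine ⟨?_, ?_⟩
    · intro X hX
      rcases mem_insert.1 hX with rfl | hX
      · exact hF'
      · exact ih.fac X hX
    · intro R' hR'
      rcases mem_insert.1 hR' with rfl | hR'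
      · exact ⟨hR, F, mem_insert_of_mem hF, F', mem_insert_self _ _, fun h => hn (h ▸ hF), h1, h2⟩
      · obtain ⟨h3, X, hX, Y, hY, hXY, h4, h5⟩ := ih.pair R' hR'
        exact ⟨h3, X, mem_insert_of_mem hX, Y, mem_insert_of_mem hY, hXY, h4, h5⟩
  | glue P G F F' R A h hF hF' hne hR h1 h2 hG hA hAR hs ih =>
    refine ⟨ih.fac, ?_⟩
    intro R' hR'
    rcases mem_insert.1 hR' with rfl | hR'
    · exact ⟨hR, F, hF, F', hF', hne, h1, h2⟩
    · exact ih.pair R' hR'

theorem exists_not_mem {d : ℕ} {E R : Finset V} (hE : E.card + 1 = d) (hR : R.card = d) :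
    ∃ u ∈ R, u ∉ E := by
  by_contra hc
  push Not at hc
  have := card_le_card (show R ⊆ E from hc)
  omega

theorem attach_ext {d : ℕ} {K : Finset (Finset V)} {E : Finset V} {psi : V → V → C → C}
    {col : V → C} {T : Fin 3 → Finset V} (D : Dat d K E psi col T) {P G : Finset (Finset V)}
    (I : Inv d K P G) {F F' R : Finset V} (hF : F ∈ P) (hF' : IsFacet K F') (hn : F' ∉ P)
    (hR : R.card = d) (h1 : R ⊆ F) (h2 : R ⊆ F') {s : Finset V → V → C}
    (hs : Flat E psi P G s) {u : V} (hu : u ∈ R) (huE : u ∉ E) :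
    ∃ s', Flat E psi (insert F' P) (insert R G) s' ∧ (∀ X ∈ P, s' X = s X) ∧
      ∀ w, s' F' w = psi u w (s F u) := by
  classical
  let s' : Finset V → V → C := fun X => if X = F' then fun w => psi u w (s F u) else s X
  have hs'F : s' F' = fun w => psi u w (s F u) := by simp [s']
  have hs'P : ∀ X ∈ P, s' X = s X := by
    intro X hX
    have : X ≠ F' := fun h => hn (h ▸ hX)
    simp [s', this]
  have hold : ∀ R' ∈ G, ¬ R' ⊆ F' := by
    intro R' hR' hsub
    obtain ⟨h3, X, hX, Y, hY, hXY, h4, h5⟩ := I.pair R' hR'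
    rcases D.two R' h3 X Y F' (I.fac X hX) (I.fac Y hY) hF' h4 h5 hsub with h | h | h
    · exact hXY h
    · exact hn (h ▸ hX)
    · exact hn (h ▸ hY)
  have honly : ∀ X ∈ P, R ⊆ X → X = F := by
    intro X hX hRX
    rcases D.two R hR X F F' (I.fac X hX) (I.fac F hF) hF' hRX h1 h2 with h | h | h
    · exact h
    · exact absurd (h ▸ hX) hn
    · exact absurd (h ▸ hF) hn
  have key : ∀ w ∈ R, w ∉ E → s F w = psi u w (s F u) :=
    fun w hw hwE => hs.inner F hF u (h1 hu) w (h1 hw) huE hwE
  refine ⟨s', ⟨?_, ?_⟩, hs'P, fun w => by rw [hs'F]⟩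
  · intro X hX a ha b hb haE hbE
    rcases mem_insert.1 hX with rfl | hX
    · rw [hs'F]
      exact (D.coc X hF' u (h2 hu) a ha b hb huE haE hbE _).symm
    · rw [hs'P X hX]
      exact hs.inner X hX a ha b hb haE hbE
  · intro R' hR' X hX Y hY hRX hRY w hw hwE
    rcases mem_insert.1 hR' with rfl | hR'
    · have cl : ∀ Z ∈ insert F' P, R' ⊆ Z → s' Z w = s F w := by
        intro Z hZ hRZ
        rcases mem_insert.1 hZ with rfl | hZ
        · rw [hs'F]
          exact (key w hw hwE).symm
        · rw [hs'P Z hZ, honly Z hZ hRZ]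
      rw [cl X hX hRX, cl Y hY hRY]
    · have hX' : X ∈ P := by
        rcases mem_insert.1 hX with rfl | h
        · exact absurd hRX (hold R' hR')
        · exact h
      have hY' : Y ∈ P := by
        rcases mem_insert.1 hY with rfl | h
        · exact absurd hRY (hold R' hR')
        · exact h
      rw [hs'P X hX', hs'P Y hY']
      exact hs.glue R' hR' X hX' Y hY' hRX hRY w hw hwE

theorem sameFace_symm {P G : Finset (Finset V)} {A X Y : Finset V} (h : SameFace P G A X Y) :
    SameFace P G A Y X := by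
  induction h with
  | refl => exact Relation.ReflTransGen.refl
  | tail _ hstep ih =>
    obtain ⟨hX, hY, R', hR', h3, h4, h5⟩ := hstep
    exact Relation.ReflTransGen.head ⟨hY, hX, R', hR', h3, h5, h4⟩ ih

/-- gluing along a face different from `E` imposes no condition -/
theorem glue_ne {d : ℕ} {K : Finset (Finset V)} {E : Finset V} {psi : V → V → C → C}
    {col : V → C} {T : Fin 3 → Finset V} (D : Dat d K E psi col T) {P G : Finset (Finset V)}
    (I : Inv d K P G) {F F' R A : Finset V} (hF : F ∈ P) (hF' : F' ∈ P) (hne : F ≠ F')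
    (hR : R.card = d) (h1 : R ⊆ F) (h2 : R ⊆ F') (hA : A.card + 1 = d) (hAR : A ⊆ R)
    (hs : SameFace P G A F F') (hAE : A ≠ E) {s : Finset V → V → C}
    (hf : Flat E psi P G s) : Flat E psi P (insert R G) s := by
  obtain ⟨u, huA, huE⟩ : ∃ u ∈ A, u ∉ E := by
    by_contra hc
    push Not at hc
    have hsub : A ⊆ E := hc
    have h3 := D.cardE
    exact hAE (eq_of_subset_of_card_le hsub (by omega))
  have hsu : s F u = s F' u := by
    have : ∀ X, SameFace P G A F X → s F u = s X u := by
      intro X hX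
      induction hX with
      | refl => rfl
      | tail _ hstep ih =>
        obtain ⟨hX, hY, R', hR', hAR', h3, h4⟩ := hstep
        rw [ih]
        exact hf.glue R' hR' _ hX _ hY h3 h4 u (hAR' huA) huE
    exact this F' hs
  have hFF : ∀ w ∈ R, w ∉ E → s F w = s F' w := by
    intro w hw hwE
    rw [hf.inner F hF u (h1 (hAR huA)) w (h1 hw) huE hwE,
      hf.inner F' hF' u (h2 (hAR huA)) w (h2 hw) huE hwE, hsu]
  refine ⟨hf.inner, ?_⟩
  intro R' hR' X hX Y hY hRX hRY w hw hwE
  rcases mem_insert.1 hR' with rfl | hR'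
  · have cl : ∀ Z ∈ P, R' ⊆ Z → s Z w = s F w := by
      intro Z hZ hRZ
      rcases D.two R' hR F F' Z (I.fac F hF) (I.fac F' hF') (I.fac Z hZ) h1 h2 hRZ with h | h | h
      · exact absurd h hne
      · rw [h]
      · rw [← h, hFF w hw hwE]
    rw [cl X hX hRX, cl Y hY hRY]
  · exact hf.glue R' hR' X hX Y hY hRX hRY w hw hwE

theorem leave {d : ℕ} {K : Finset (Finset V)} {E : Finset V} {psi : V → V → C → C}
    {col : V → C} {T : Fin 3 → Finset V} (D : Dat d K E psi col T) {P G : Finset (Finset V)}
    (I : Inv d K P G) {i j k : Fin 3} (hij : i ≠ j) (hk : ∀ m : Fin 3, m = i ∨ m = j ∨ m = k)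
    (hi : T i ∈ P) (hRG : T i ∩ T j ∉ G) (hs : SameFace P G E (T i) (T j)) :
    T i ∩ T k ∈ G := by
  by_contra hcon
  have hall : ∀ X, SameFace P G E (T i) X → X = T i := by
    intro X hX
    induction hX with
    | refl => rfl
    | tail _ hstep ih =>
      rename_i Y Z _
      obtain ⟨hY, hZ, R', hR', hER', h3, h4⟩ := hstep
      subst ih
      by_contra hne
      have hZf := I.fac Z hZ
      obtain ⟨m, rfl⟩ := D.ring Z hZf (hER'.trans h4)
      obtain ⟨hc, -⟩ := I.pair R' hR'
      have h5 := eq_inter (D.pure _ (I.fac _ hi)) (D.pure _ hZf) (Ne.symm hne) hc h3 h4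
      rcases hk m with rfl | rfl | rfl
      · exact hne rfl
      · exact hRG (h5 ▸ hR')
      · exact hcon (h5 ▸ hR')
  exact hij (D.inj (hall (T j) hs).symm)

theorem third (i j : Fin 3) (hij : i ≠ j) :
    ∃ k : Fin 3, k ≠ i ∧ k ≠ j ∧ ∀ m : Fin 3, m = i ∨ m = j ∨ m = k := by
  revert i j
  decide

/-- the statement proved along a local construction -/
def Good (E : Finset V) (psi : V → V → C → C) (T : Fin 3 → Finset V)
    (P G : Finset (Finset V)) : Prop :=
  (∀ F ∈ P, ∀ u ∈ F, u ∉ E → ∀ a, ∃ s, Flat E psi P G s ∧ s F u = a) ∨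
    ((∀ i j, i ≠ j → T i ∩ T j ∈ G) ∧ ∃ s, Flat E psi P G s)

theorem good_stage {d : ℕ} {K : Finset (Finset V)} {E : Finset V} {psi : V → V → C → C}
    {col : V → C} {T : Fin 3 → Finset V} (D : Dat d K E psi col T) {P G : Finset (Finset V)}
    (h : LCStage d K P G) : Good E psi T P G := by
  induction h with
  | start F hF =>
    left
    intro F' hF' u hu huE a
    rw [mem_singleton] at hF'
    subst hF'
    refine ⟨fun _ w => psi u w a, ⟨?_, by simp⟩, D.refl F' hF u hu huE a⟩
    intro X hX v hv w hw hvE hwE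
    rw [mem_singleton] at hX
    subst hX
    exact (D.coc X hF u hu v hv w hw huE hvE hwE a).symm
  | attach P G F F' R h hF hF' hn hR h1 h2 hG ih =>
    have I := stage_inv h
    obtain ⟨u, hu, huE⟩ := exists_not_mem D.cardE hR
    rcases ih with ih | ⟨hring, s, hs⟩
    · left
      intro X hX w hw hwE a
      rcases mem_insert.1 hX with rfl | hX
      · obtain ⟨s, hs, hsu⟩ := ih F hF u (h1 hu) huE (psi w u a)
        obtain ⟨s', hs', -, h3⟩ := attach_ext D I hF hF' hn hR h1 h2 hs hu huE
        refine ⟨s', hs', ?_⟩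
        rw [h3, hsu, D.coc X hF' w hw u (h2 hu) w hw hwE huE hwE a, D.refl X hF' w hw hwE a]
      · obtain ⟨s, hs, hsu⟩ := ih X hX w hw hwE a
        obtain ⟨s', hs', h3, -⟩ := attach_ext D I hF hF' hn hR h1 h2 hs hu huE
        exact ⟨s', hs', by rw [h3 X hX, hsu]⟩
    · right
      obtain ⟨s', hs', -, -⟩ := attach_ext D I hF hF' hn hR h1 h2 hs hu huE
      exact ⟨fun i j hij => mem_insert_of_mem (hring i j hij), s', hs'⟩
  | glue P G F F' R A h hF hF' hne hR h1 h2 hG hA hAR hs ih =>
    have I := stage_inv h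
    by_cases hAE : A = E
    · subst hAE
      obtain ⟨i, rfl⟩ := D.ring F (I.fac F hF) (hAR.trans h1)
      obtain ⟨j, rfl⟩ := D.ring F' (I.fac F' hF') (hAR.trans h2)
      have hij : i ≠ j := fun h => hne (by rw [h])
      have hRe := eq_inter (D.pure _ (I.fac _ hF)) (D.pure _ (I.fac _ hF')) hne hR h1 h2
      subst hRe
      rcases ih with ih | ⟨hring, -⟩
      · right
        obtain ⟨k, hki, hkj, hk⟩ := third i j hij
        have hG1 := leave D I hij hk hF hG hs
        have hs' : SameFace P G A (T j) (T i) := sameFace_symm hs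
        have hG2 := leave D I (Ne.symm hij) (fun m => by
          rcases hk m with h | h | h
          · exact Or.inr (Or.inl h)
          · exact Or.inl h
          · exact Or.inr (Or.inr h)) hF' (by rw [inter_comm]; exact hG) hs'
        -- the third facet has been used
        obtain ⟨hc1, X, hX, Y, hY, hXY, hRX, hRY⟩ := I.pair _ hG1
        have hcol : ∀ (s : Finset V → V → C) (hsf : Flat A psi P G s) (F : Finset V) (hFP : F ∈ P)
            (hAF : A ⊆ F) (u : V) (hu : u ∈ F) (huA : u ∉ A) (hsu : s F u = col u), ∀ w ∈ F,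
            w ∉ A → s F w = col w := by
          intro s hsf F hFP hAF u hu huA hsu w hw hwA
          rw [hsf.inner F hFP u hu w hw huA hwA, hsu]
          exact D.hcol F (I.fac F hFP) hAF u hu w hw huA hwA
        have hAi : A ⊆ T i := hAR.trans h1
        have hAj : A ⊆ T j := hAR.trans h2
        -- a starting vertex in `T i`
        obtain ⟨u0, hu0, hu0A⟩ := exists_not_mem D.cardE hR
        have hu0i := h1 hu0
        obtain ⟨s, hsf, hsu⟩ := ih (T i) hF u0 hu0i hu0A (col u0)
        have hci := hcol s hsf (T i) hF hAi u0 hu0i hu0A hsu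
        have hcj := hcol s hsf (T j) hF' hAj u0 (h2 hu0) hu0A
        have hring' : ∀ a b : Fin 3, a ≠ b → T a ∩ T b ∈ insert (T i ∩ T j) G := by
          intro a b hab
          rcases hk a with rfl | rfl | rfl <;> rcases hk b with rfl | rfl | rfl
          · exact absurd rfl hab
          · exact mem_insert_self _ _
          · exact mem_insert_of_mem hG1
          · rw [inter_comm]; exact mem_insert_self _ _
          · exact absurd rfl hab
          · exact mem_insert_of_mem hG2
          · rw [inter_comm (T a)]; exact mem_insert_of_mem hG1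
          · rw [inter_comm (T a)]; exact mem_insert_of_mem hG2
          · exact absurd rfl hab
        -- transport of the values around `A`
        have htrans : ∀ X, SameFace P G A (T i) X → ∀ w ∈ X, w ∉ A → s X w = col w := by
          intro X hX
          induction hX with
          | refl => exact hci
          | tail _ hstep ih2 =>
            obtain ⟨hY, hZ, R', hR', hAR', h3, h4⟩ := hstep
            obtain ⟨hc, -⟩ := I.pair R' hR'
            obtain ⟨v, hv, hvA⟩ := exists_not_mem D.cardE hc
            have e1 := ih2 v (h3 hv) hvA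
            have e2 := hsf.glue R' hR' _ hY _ hZ h3 h4 v hv hvA
            exact hcol s hsf _ hZ (hAR'.trans h4) v (h4 hv) hvA (e2.symm.trans e1)
        refine ⟨hring', s, hsf.inner, ?_⟩
        intro R' hR' X' hX' Y' hY' hRX' hRY' w hw hwE
        rcases mem_insert.1 hR' with rfl | hR'
        · have cl : ∀ Z ∈ P, T i ∩ T j ⊆ Z → s Z w = col w := by
            intro Z hZ hRZ
            rcases D.two _ hR (T i) (T j) Z (I.fac _ hF) (I.fac _ hF') (I.fac Z hZ) h1 h2 hRZ with
              h | h | h
            · exact absurd h hne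
            · rw [← h]; exact hci w (h1 hw) hwE
            · rw [← h]; exact htrans _ hs w (h2 hw) hwE
          rw [cl X' hX' hRX', cl Y' hY' hRY']
        · exact hsf.glue R' hR' X' hX' Y' hY' hRX' hRY' w hw hwE
      · exact absurd (hring i j hij) hG
    · rcases ih with ih | ⟨hring, s, hsf⟩
      · left
        intro X hX u hu huE a
        obtain ⟨s, hsf, hsu⟩ := ih X hX u hu huE a
        exact ⟨s, glue_ne D I hF hF' hne hR h1 h2 hA hAR hs hAE hsf, hsu⟩
      · right
        exact ⟨fun i j hij => mem_insert_of_mem (hring i j hij), s,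
          glue_ne D I hF hF' hne hR h1 h2 hA hAR hs hAE hsf⟩

/-- a locally constructible complex has a global section -/
theorem exists_section {d : ℕ} {K : Finset (Finset V)} {E : Finset V} {psi : V → V → C → C}
    {col : V → C} {T : Fin 3 → Finset V} [Nonempty C] (D : Dat d K E psi col T)
    (hcx : IsCx K) (h : IsLC d K) :
    ∃ g : V → C, ∀ F, IsFacet K F → ∀ u ∈ F, ∀ v ∈ F, u ∉ E → v ∉ E → g v = psi u v (g u) := by
  classical
  obtain ⟨-, -, P, G, hst, hall, hsame⟩ := h
  have I := stage_inv hst
  obtain ⟨s, hs⟩ : ∃ s, Flat E psi P G s := by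
    rcases good_stage D hst with h1 | ⟨-, h1⟩
    · by_cases hP : ∃ F ∈ P, ∃ u ∈ F, u ∉ E
      · obtain ⟨F, hF, u, hu, huE⟩ := hP
        obtain ⟨s, hs, -⟩ := h1 F hF u hu huE (Classical.arbitrary C)
        exact ⟨s, hs⟩
      · push Not at hP
        refine ⟨fun _ _ => Classical.arbitrary C, ?_, ?_⟩
        · intro F hF u hu v _ huE
          exact absurd (hP F hF u hu) huE
        · intro R _ X _ Y _ _ _ u _ _
          rfl
    · exact h1
  let g : V → C := fun u => if hu : ∃ F ∈ P, u ∈ F then s hu.choose u else Classical.arbitrary C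
  have hg : ∀ F ∈ P, ∀ u ∈ F, u ∉ E → g u = s F u := by
    intro F hF u hu huE
    have hex : ∃ F ∈ P, u ∈ F := ⟨F, hF, hu⟩
    have h1 : g u = s hex.choose u := by
      simp only [g, dif_pos hex]
    rw [h1]
    have hc := hex.choose_spec
    have hK : ({u} : Finset V) ∈ K := hcx.2 F (I.fac F hF).1 {u} (singleton_subset_iff.2 hu)
    have h2 := hsame {u} hK _ hc.1 F hF (singleton_subset_iff.2 hc.2) (singleton_subset_iff.2 hu)
    have : ∀ X, SameFace P G {u} hex.choose X → s hex.choose u = s X u := by
      intro X hX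
      induction hX with
      | refl => rfl
      | tail _ hstep ih =>
        obtain ⟨hX, hY, R', hR', hAR', h3, h4⟩ := hstep
        rw [ih]
        exact hs.glue R' hR' _ hX _ hY h3 h4 u (hAR' (mem_singleton_self u)) huE
    exact this F h2
  refine ⟨g, ?_⟩
  intro F hF u hu v hv huE hvE
  have hFP := hall F hF
  rw [hg F hFP u hu huE, hg F hFP v hv hvE]
  exact hs.inner F hFP u hu v hv huE hvE

end Pool.Agent.TH380.NE
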