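import Mathlib
import Pool.Agent.Helper175.NS.Local
import Pool.Agent.H933R3.Evas
import Pool.Agent.TH380.NE.Obst
import Pool.Agent.TH380.NE.Chain

set_option autoImplicit false

/-!
# Non-evasive balls that are not locally constructible
-/

namespace Pool.Agent.TH380.NE

open Finset Pool.Agent.Helper175.NS Pool.Agent.H933R3

/-! ### Cones are non-evasive -/

theorem nonEvasive_cone {V : Type} [DecidableEq V] (v : V) (n : ℕ) :
    ∀ K : Finset (Finset V), K.card ≤ n → IsCx K → (∀ σ ∈ K, insert v σ ∈ K) → NonEvasive K := by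
  induction n with
  | zero =>
    intro K hc hK _
    have h1 : K = ∅ := card_eq_zero.1 (by omega)
    exact absurd (h1 ▸ hK.1) (notMem_empty _)
  | succ n ih =>
    intro K hc hK hv
    have hvK : ({v} : Finset V) ∈ K := by
      have := hv ∅ hK.1
      simpa using this
    by_cases hall : ∀ σ ∈ K, σ ⊆ {v}
    · have h1 : K = {∅, {v}} := by
        ext σ
        rw [mem_insert, mem_singleton]
        constructor
        · intro hσ
          exact subset_singleton_iff.1 (hall σ hσ)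
        · rintro (rfl | rfl)
          · exact hK.1
          · exact hvK
      rw [h1]
      exact NonEvasive.point v
    · push Not at hall
      obtain ⟨σ, hσ, hsub⟩ := hall
      obtain ⟨w, hw, hwv⟩ : ∃ w ∈ σ, w ≠ v := by
        by_contra hcon
        push Not at hcon
        exact hsub (fun x hx => mem_singleton.2 (hcon x hx))
      have hwK : ({w} : Finset V) ∈ K := hK.2 σ hσ _ (singleton_subset_iff.2 hw)
      have hlt : ∀ L : Finset (Finset V), L ⊆ K → {w} ∉ L → L.card ≤ n := by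
        intro L hL hwL
        have h1 : L.card < K.card := card_lt_card ⟨hL, fun h => hwL (h hwK)⟩
        omega
      refine NonEvasive.step K w hwK ?_ ?_
      · refine ih (del K w) (hlt _ (filter_subset _ _) ?_) (hK.del w) ?_
        · rw [mem_del]
          rintro ⟨-, h⟩
          exact h (mem_singleton_self w)
        · intro τ hτ
          rw [mem_del] at hτ ⊢
          refine ⟨hv τ hτ.1, ?_⟩
          rw [mem_insert, not_or]
          exact ⟨hwv, hτ.2⟩
      · refine ih (link K w) (hlt _ (filter_subset _ _) ?_) (hK.link hwK) ?_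
        · rw [mem_link hK]
          rintro ⟨h, -⟩
          exact h (mem_singleton_self w)
        · intro τ hτ
          rw [mem_link hK] at hτ ⊢
          refine ⟨?_, ?_⟩
          · rw [mem_insert, not_or]
            exact ⟨hwv, hτ.1⟩
          · rw [insert_comm]
            exact hv _ hτ.2

/-! ### The complexes -/

/-- the facet with the mask `m` -/
def Fc (d m : ℕ) : Finset (Fin (d + 11)) :=
  univ.filter (fun x => m.testBit (x : ℕ) = true ∨ 14 ≤ (x : ℕ))

theorem mem_Fc {d m : ℕ} {x : Fin (d + 11)} :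
    x ∈ Fc d m ↔ m.testBit (x : ℕ) = true ∨ 14 ≤ (x : ℕ) := by
  rw [Fc, mem_filter]
  simp

/-- the complex: the join of the 3-ball `B` with a simplex with `d - 3` vertices -/
def Kd (d : ℕ) : Finset (Finset (Fin (d + 11))) :=
  univ.filter (fun σ => ∃ m ∈ Bp, σ ⊆ Fc d m)

theorem mem_Kd {d : ℕ} {σ : Finset (Fin (d + 11))} : σ ∈ Kd d ↔ ∃ m ∈ Bp, σ ⊆ Fc d m := by
  rw [Kd, mem_filter]
  simp

theorem isCx_Kd (d : ℕ) : IsCx (Kd d) := by
  refine ⟨mem_Kd.2 ⟨23, by decide, empty_subset _⟩, ?_⟩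
  intro σ hσ τ hτ
  obtain ⟨m, hm, h⟩ := mem_Kd.1 hσ
  exact mem_Kd.2 ⟨m, hm, hτ.trans h⟩

theorem nonEvasive_Kd (d : ℕ) (hd : 4 ≤ d) : NonEvasive (Kd d) := by
  refine nonEvasive_cone (⟨14, by omega⟩ : Fin (d + 11)) (Kd d).card (Kd d) le_rfl (isCx_Kd d) ?_
  intro σ hσ
  obtain ⟨m, hm, h⟩ := mem_Kd.1 hσ
  refine mem_Kd.2 ⟨m, hm, ?_⟩
  intro x hx
  rcases mem_insert.1 hx with rfl | hx
  · exact mem_Fc.2 (Or.inr le_rfl)
  · exact h hx

theorem Bp_small : ∀ m ∈ Bp, m < 8192 := by decide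

theorem card_dec_Bp : ∀ m ∈ Bp, (bits m).length = 4 := by decide

theorem card_dec (m : ℕ) : (dec m).card = (bits m).length := by
  have e : dec m = (bits m).toFinset := by
    ext n
    rw [List.mem_toFinset, mem_bits]
  rw [e, List.toFinset_card_of_nodup]
  exact (List.nodup_range).filter _

theorem image_Fc (d m : ℕ) (hd : 3 ≤ d) :
    (Fc d m).image Fin.val = dec m ∪ Ico 14 (d + 11) := by
  ext k
  rw [mem_image, mem_union, mem_dec, mem_Ico]
  constructor
  · rintro ⟨i, hi, rfl⟩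
    rw [mem_Fc] at hi
    have := i.2
    rcases hi with h | h
    · by_cases h14 : (i : ℕ) < 14
      · exact Or.inl ⟨h14, h⟩
      · exact Or.inr ⟨by omega, this⟩
    · exact Or.inr ⟨h, this⟩
  · rintro (⟨h1, h2⟩ | ⟨h1, h2⟩)
    · exact ⟨⟨k, by omega⟩, mem_Fc.2 (Or.inl h2), rfl⟩
    · exact ⟨⟨k, h2⟩, mem_Fc.2 (Or.inr h1), rfl⟩

theorem card_Fc (d : ℕ) (hd : 3 ≤ d) {m : ℕ} (hm : m ∈ Bp) : (Fc d m).card = d + 1 := by
  rw [← card_image_of_injective (Fc d m) Fin.val_injective, image_Fc d m hd,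
    card_union_of_disjoint, card_dec, card_dec_Bp m hm, Nat.card_Ico]
  · omega
  · rw [disjoint_left]
    intro x hx hx2
    have h1 := (mem_dec.1 hx).1
    have h2 := (mem_Ico.1 hx2).1
    omega

theorem isFacet_iff (d : ℕ) (hd : 3 ≤ d) {F : Finset (Fin (d + 11))} :
    IsFacet (Kd d) F ↔ ∃ m ∈ Bp, F = Fc d m := by
  constructor
  · rintro ⟨h1, h2⟩
    obtain ⟨m, hm, h⟩ := mem_Kd.1 h1
    exact ⟨m, hm, (h2 _ (mem_Kd.2 ⟨m, hm, Subset.refl _⟩) h).symm⟩
  · rintro ⟨m, hm, rfl⟩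
    refine ⟨mem_Kd.2 ⟨m, hm, Subset.refl _⟩, ?_⟩
    intro G hG hsub
    obtain ⟨m', hm', h⟩ := mem_Kd.1 hG
    have h1 : Fc d m = Fc d m' := by
      apply eq_of_subset_of_card_le (hsub.trans h)
      rw [card_Fc d hd hm, card_Fc d hd hm']
    exact Subset.antisymm (h1 ▸ h) hsub

/-! ### The realization is a ball -/

/-- the set of facets -/
def Gd (d : ℕ) : Finset (Finset (Fin (d + 11))) := (Bp.map (Fc d)).toFinset

theorem mem_Gd {d : ℕ} {F : Finset (Fin (d + 11))} : F ∈ Gd d ↔ ∃ m ∈ Bp, Fc d m = F := by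
  rw [Gd, List.mem_toFinset, List.mem_map]

theorem Gd_image (d : ℕ) (hd : 3 ≤ d) :
    (Gd d).image (fun F => F.image Fin.val) = J (Ico 14 (d + 11)) (decL Bp) := by
  ext A
  rw [mem_image, mem_J]
  constructor
  · rintro ⟨F, hF, rfl⟩
    obtain ⟨m, hm, rfl⟩ := mem_Gd.1 hF
    exact ⟨dec m, mem_decL.2 ⟨m, hm, rfl⟩, (image_Fc d m hd).symm⟩
  · rintro ⟨β, hβ, rfl⟩
    obtain ⟨m, hm, rfl⟩ := mem_decL.1 hβ
    exact ⟨Fc d m, mem_Gd.2 ⟨m, hm, rfl⟩, image_Fc d m hd⟩

theorem realization_Kd (d : ℕ) : realization (Kd d) = Sp (Gd d) := by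
  ext x
  constructor
  · rintro ⟨h0, h1, σ, hσ, h2⟩
    obtain ⟨m, hm, h3⟩ := mem_Kd.1 hσ
    refine ⟨h0, Fc d m, mem_Gd.2 ⟨m, hm, rfl⟩, fun i hi => h2 i (fun h => hi (h3 h)), ?_⟩
    rw [← h1]
    exact sum_subset (subset_univ _) (fun i _ hi => h2 i (fun h => hi (h3 h)))
  · rintro ⟨h0, F, hF, h1, h2⟩
    obtain ⟨m, hm, rfl⟩ := mem_Gd.1 hF
    refine ⟨h0, ?_, Fc d m, mem_Kd.2 ⟨m, hm, Subset.refl _⟩, h1⟩
    rw [← h2]
    exact (sum_subset (subset_univ _) (fun i _ hi => h1 i hi)).symm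

theorem isBall_Kd (d : ℕ) (hd : 3 ≤ d) : IsBall d (Kd d) := by
  unfold IsBall
  rw [realization_Kd]
  obtain ⟨e1⟩ := relabel_homeo (Gd d) (Fin.val : Fin (d + 11) → ℕ) univ (fun F _ => subset_univ F)
    (Fin.val_injective.injOn)
  rw [Gd_image d hd] at e1
  obtain ⟨e2⟩ := join_ball (Ico 14 (d + 11)) (fun n hn => (mem_Ico.1 hn).1) d (by
    rw [Nat.card_Ico]
    omega)
  exact ⟨e1.symm.trans e2⟩

/-! ### The data of the obstruction -/

theorem two_check : (Bp.all fun a => Bp.all fun b => decide (a = b) ||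
    decide ((bits (a &&& b)).length < 3) ||
    Bp.all fun c => decide (a = c) || decide (b = c) ||
      decide ((bits (a &&& b &&& c)).length < 3)) = true := by decide +kernel

theorem two_masks {a b c : ℕ} (ha : a ∈ Bp) (hb : b ∈ Bp) (hc : c ∈ Bp)
    (h : 3 ≤ (dec (a &&& b &&& c)).card) : a = b ∨ a = c ∨ b = c := by
  have h1 := two_check
  rw [List.all_eq_true] at h1
  have h2 := h1 a ha
  rw [List.all_eq_true] at h2
  have h3 := h2 b hb
  simp only [Bool.or_eq_true, decide_eq_true_eq, List.all_eq_true] at h3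
  rcases h3 with (h3 | h3) | h3
  · exact Or.inl h3
  · exfalso
    have h4 : dec (a &&& b &&& c) ⊆ dec (a &&& b) := by
      intro x hx
      rw [mem_dec] at hx ⊢
      refine ⟨hx.1, ?_⟩
      have h5 := hx.2
      rw [Nat.testBit_land, Bool.and_eq_true] at h5
      exact h5.1
    have h5 := card_le_card h4
    rw [card_dec (a &&& b)] at h5
    omega
  · rcases h3 c hc with (h4 | h4) | h4
    · exact Or.inr (Or.inl h4)
    · exact Or.inr (Or.inr h4)
    · rw [card_dec] at h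
      omega

theorem card_big (d : ℕ) : (univ.filter (fun x : Fin (d + 11) => 14 ≤ (x : ℕ))).card ≤ d - 3 := by
  rw [← card_image_of_injective _ Fin.val_injective]
  have h1 : (univ.filter (fun x : Fin (d + 11) => 14 ≤ (x : ℕ))).image Fin.val ⊆
      Ico 14 (d + 11) := by
    intro k hk
    obtain ⟨i, hi, rfl⟩ := mem_image.1 hk
    rw [mem_filter] at hi
    exact mem_Ico.2 ⟨hi.2, i.2⟩
  have h2 := card_le_card h1
  rw [Nat.card_Ico] at h2
  omega

theorem atMostTwo_Kd (d : ℕ) (hd : 3 ≤ d) : AtMostTwo d (Kd d) := by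
  intro R hR X Y Z hX hY hZ hRX hRY hRZ
  obtain ⟨a, ha, rfl⟩ := (isFacet_iff d hd).1 hX
  obtain ⟨b, hb, rfl⟩ := (isFacet_iff d hd).1 hY
  obtain ⟨c, hc, rfl⟩ := (isFacet_iff d hd).1 hZ
  have key : 3 ≤ (dec (a &&& b &&& c)).card := by
    have h1 : (R.filter (fun x : Fin (d + 11) => ¬ 14 ≤ (x : ℕ))).card + (R.filter (fun x : Fin (d + 11) => 14 ≤ (x : ℕ))).card
        = R.card := by
      rw [add_comm]
      exact card_filter_add_card_filter_not _
    have h2 : (R.filter (fun x : Fin (d + 11) => 14 ≤ (x : ℕ))).card ≤ d - 3 :=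
      (card_le_card (filter_subset_filter _ (subset_univ R))).trans (card_big d)
    have h3 : (R.filter (fun x : Fin (d + 11) => ¬ 14 ≤ (x : ℕ))).card ≤ (dec (a &&& b &&& c)).card := by
      rw [← card_image_of_injective _ Fin.val_injective]
      apply card_le_card
      intro k hk
      obtain ⟨i, hi, rfl⟩ := mem_image.1 hk
      rw [mem_filter] at hi
      have e1 := (mem_Fc.1 (hRX hi.1)).resolve_right hi.2
      have e2 := (mem_Fc.1 (hRY hi.1)).resolve_right hi.2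
      have e3 := (mem_Fc.1 (hRZ hi.1)).resolve_right hi.2
      rw [mem_dec]
      refine ⟨by omega, ?_⟩
      rw [Nat.testBit_land, Nat.testBit_land, e1, e2, e3]
      rfl
    omega
  rcases two_masks ha hb hc key with rfl | rfl | rfl
  · exact Or.inl rfl
  · exact Or.inr (Or.inl rfl)
  · exact Or.inr (Or.inr rfl)

/-- the join of the knotted edge with the simplex -/
def Ed (d : ℕ) : Finset (Fin (d + 11)) := Fc d 6144

theorem mem_Ed {d : ℕ} {x : Fin (d + 11)} :
    x ∈ Ed d ↔ (x : ℕ) = 11 ∨ (x : ℕ) = 12 ∨ 14 ≤ (x : ℕ) := by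
  rw [Ed, mem_Fc]
  constructor
  · rintro (h | h)
    · by_cases h14 : 14 ≤ (x : ℕ)
      · exact Or.inr (Or.inr h14)
      · have : (x : ℕ) ∈ dec 6144 := mem_dec.2 ⟨by omega, h⟩
        have h2 : dec 6144 = {11, 12} := by decide
        rw [h2, mem_insert, mem_singleton] at this
        tauto
    · exact Or.inr (Or.inr h)
  · rintro (h | h | h)
    · left; rw [h]; decide
    · left; rw [h]; decide
    · exact Or.inr h

theorem card_Ed (d : ℕ) (hd : 3 ≤ d) : (Ed d).card + 1 = d := by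
  rw [Ed, ← card_image_of_injective _ Fin.val_injective, image_Fc d _ hd,
    card_union_of_disjoint, Nat.card_Ico, show (dec 6144).card = 2 by decide]
  · omega
  · rw [disjoint_left]
    intro x hx hx2
    have h1 := (mem_dec.1 hx).1
    have h2 := (mem_Ico.1 hx2).1
    omega

/-- transition functions -/
def ps (d : ℕ) (u v : Fin (d + 11)) (c : Fin 3) : Fin 3 := psi (u : ℕ) (v : ℕ) c

/-- the three facets around the knotted edge -/
def Tm : Fin 3 → ℕ := ![6149, 6177, 6180]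

def Td (d : ℕ) (i : Fin 3) : Finset (Fin (d + 11)) := Fc d (Tm i)

theorem coc_check : ∀ m ∈ Bp, (∀ u ∈ bits m, u ≠ 11 ∧ u ≠ 12 → ∀ c, psi u u c = c) ∧
    (∀ u ∈ bits m, u ≠ 11 ∧ u ≠ 12 → ∀ v ∈ bits m, v ≠ 11 ∧ v ≠ 12 → ∀ w ∈ bits m,
      w ≠ 11 ∧ w ≠ 12 → ∀ c, psi v w (psi u v c) = psi u w c) := by decide +kernel

theorem ring_check : ∀ m ∈ Bp, m.testBit 11 = true → m.testBit 12 = true → ∃ i, m = Tm i := by
  decide

theorem col_check : ∀ m ∈ Bp, m.testBit 11 = true → m.testBit 12 = true → ∀ u ∈ bits m,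
    u ≠ 11 ∧ u ≠ 12 → ∀ v ∈ bits m, v ≠ 11 ∧ v ≠ 12 → psi u v 0 = 0 := by decide +kernel

theorem mem_bits_of {d m : ℕ} {x : Fin (d + 11)} (h : x ∈ Fc d m) (hE : x ∉ Ed d) :
    (x : ℕ) ∈ bits m ∧ (x : ℕ) ≠ 11 ∧ (x : ℕ) ≠ 12 := by
  rw [mem_Ed] at hE
  push Not at hE
  rw [mem_Fc] at h
  refine ⟨?_, hE.1, hE.2.1⟩
  rw [mem_bits, mem_dec]
  have := hE.2.2
  refine ⟨this, ?_⟩
  rcases h with h | h
  · exact h
  · omega

theorem sub_Ed {d m : ℕ} (hd : 3 ≤ d) (h : Ed d ⊆ Fc d m) :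
    m.testBit 11 = true ∧ m.testBit 12 = true := by
  constructor
  · have h1 : (⟨11, by omega⟩ : Fin (d + 11)) ∈ Ed d := mem_Ed.2 (Or.inl rfl)
    rcases mem_Fc.1 (h h1) with h2 | h2
    · exact h2
    · exact absurd h2 (by simp)
  · have h1 : (⟨12, by omega⟩ : Fin (d + 11)) ∈ Ed d := mem_Ed.2 (Or.inr (Or.inl rfl))
    rcases mem_Fc.1 (h h1) with h2 | h2
    · exact h2
    · exact absurd h2 (by simp)

theorem inj_Td (d : ℕ) (hd : 3 ≤ d) : Function.Injective (Td d) := by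
  intro i j h
  have key : ∀ k : ℕ, k < 14 → ((Tm i).testBit k = true ↔ (Tm j).testBit k = true) := by
    intro k hk
    have h1 : (⟨k, by omega⟩ : Fin (d + 11)) ∈ Td d i ↔ (⟨k, by omega⟩ : Fin (d + 11)) ∈ Td d j := by
      rw [h]
    rw [Td, Td, mem_Fc, mem_Fc] at h1
    have h2 : ¬ 14 ≤ k := by omega
    simpa [h2] using h1
  have h0 := key 0 (by norm_num)
  have h2 := key 2 (by norm_num)
  have h5 := key 5 (by norm_num)
  clear key h
  revert i j
  decide

theorem dat_Kd (d : ℕ) (hd : 3 ≤ d) :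
    Dat d (Kd d) (Ed d) (ps d) (fun _ => (0 : Fin 3)) (Td d) where
  pure := by
    intro F hF
    obtain ⟨m, hm, rfl⟩ := (isFacet_iff d hd).1 hF
    exact card_Fc d hd hm
  two := atMostTwo_Kd d hd
  cardE := card_Ed d hd
  refl := by
    intro F hF u hu huE c
    obtain ⟨m, hm, rfl⟩ := (isFacet_iff d hd).1 hF
    obtain ⟨h1, h2⟩ := mem_bits_of hu huE
    exact (coc_check m hm).1 _ h1 h2 c
  coc := by
    intro F hF u hu v hv w hw huE hvE hwE c
    obtain ⟨m, hm, rfl⟩ := (isFacet_iff d hd).1 hF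
    obtain ⟨h1, h2⟩ := mem_bits_of hu huE
    obtain ⟨h3, h4⟩ := mem_bits_of hv hvE
    obtain ⟨h5, h6⟩ := mem_bits_of hw hwE
    exact (coc_check m hm).2 _ h1 h2 _ h3 h4 _ h5 h6 c
  hcol := by
    intro F hF hEF u hu v hv huE hvE
    obtain ⟨m, hm, rfl⟩ := (isFacet_iff d hd).1 hF
    obtain ⟨h1, h2⟩ := mem_bits_of hu huE
    obtain ⟨h3, h4⟩ := mem_bits_of hv hvE
    obtain ⟨h5, h6⟩ := sub_Ed hd hEF
    exact col_check m hm h5 h6 _ h1 h2 _ h3 h4
  ring := by
    intro F hF hEF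
    obtain ⟨m, hm, rfl⟩ := (isFacet_iff d hd).1 hF
    obtain ⟨h5, h6⟩ := sub_Ed hd hEF
    obtain ⟨i, hi⟩ := ring_check m hm h5 h6
    exact ⟨i, by rw [Td, hi]⟩
  inj := inj_Td d hd

theorem not_isLC_Kd (d : ℕ) (hd : 3 ≤ d) : ¬ IsLC d (Kd d) := by
  intro h
  obtain ⟨g, hg⟩ := exists_section (dat_Kd d hd) (isCx_Kd d) h
  have key : ∀ (m : ℕ) (_ : m ∈ Bp) (u v : ℕ) (hu : u < d + 11) (hv : v < d + 11),
      m.testBit u = true → m.testBit v = true → (u ≠ 11 ∧ u ≠ 12 ∧ u < 14) →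
      (v ≠ 11 ∧ v ≠ 12 ∧ v < 14) → g ⟨v, hv⟩ = psi u v (g ⟨u, hu⟩) := by
    intro m hm u v hu hv h1 h2 h3 h4
    refine hg (Fc d m) ((isFacet_iff d hd).2 ⟨m, hm, rfl⟩) ⟨u, hu⟩ (mem_Fc.2 (Or.inl h1)) ⟨v, hv⟩
      (mem_Fc.2 (Or.inl h2)) ?_ ?_
    · rw [mem_Ed]
      simp only
      omega
    · rw [mem_Ed]
      simp only
      omega
  have h1 := key 23 (by decide) 0 1 (by omega) (by omega) (by decide) (by decide) (by decide)
    (by decide)
  have h2 := key 23 (by decide) 0 2 (by omega) (by omega) (by decide) (by decide) (by decide)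
    (by decide)
  have h3 := key 2092 (by decide) 2 5 (by omega) (by omega) (by decide) (by decide) (by decide)
    (by decide)
  have h5 := key 2242 (by decide) 1 7 (by omega) (by omega) (by decide) (by decide) (by decide)
    (by decide)
  have h6 := key 2209 (by decide) 0 5 (by omega) (by omega) (by decide) (by decide) (by decide)
    (by decide)
  have h7 := key 2209 (by decide) 5 7 (by omega) (by omega) (by decide) (by decide) (by decide)
    (by decide)
  generalize g ⟨0, _⟩ = a0 at *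
  generalize g ⟨1, _⟩ = a1 at *
  generalize g ⟨2, _⟩ = a2 at *
  generalize g ⟨5, _⟩ = a5 at *
  generalize g ⟨7, _⟩ = a7 at *
  clear key hg h
  revert a0 a1 a2 a5 a7
  decide

end Pool.Agent.TH380.NE
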